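import Mathlib

/-!
# The pairs `(N, d)` with `d ^ N < C(N + d, N)`
-/

set_option autoImplicit false

namespace Pool.Agent.W2helper9.SD

theorem choose_step {N d : ℕ} (hN : 1 ≤ N) (hd : 2 ≤ d) :
    (N + 1 + d).choose (N + 1) ≤ d * (N + d).choose N := by
  have h1 : (N + 1) * (N + 1 + d).choose (N + 1) = (N + 1 + d) * (N + d).choose N := by
    have h := Nat.add_one_mul_choose_eq (N + d) N
    have e : N + d + 1 = N + 1 + d := by ring
    rw [e] at h
    linarith
  have h2 : N + 1 + d ≤ d * (N + 1) := by nlinarith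
  have h3 : (N + 1) * (N + 1 + d).choose (N + 1) ≤ (N + 1) * (d * (N + d).choose N) := by
    rw [h1]
    calc (N + 1 + d) * (N + d).choose N ≤ (d * (N + 1)) * (N + d).choose N :=
          Nat.mul_le_mul_right _ h2
      _ = (N + 1) * (d * (N + d).choose N) := by ring
  exact Nat.le_of_mul_le_mul_left h3 (Nat.succ_pos N)

theorem step_up {N d : ℕ} (hN : 1 ≤ N) (hd : 2 ≤ d) (h : (N + d).choose N ≤ d ^ N) :
    ∀ k : ℕ, (N + k + d).choose (N + k) ≤ d ^ (N + k) := by
  intro k
  induction k with
  | zero => exact h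
  | succ k ih =>
    have h1 := choose_step (N := N + k) (d := d) (by omega) hd
    rw [← Nat.add_assoc, pow_succ]
    refine h1.trans ?_
    rw [mul_comm (d ^ (N + k))]
    exact Nat.mul_le_mul_left d ih

theorem cases_arith {N d : ℕ} (hN : 1 ≤ N) (hd : 2 ≤ d) (h : d ^ N < (N + d).choose N) :
    N = 1 ∨ (N = 2 ∧ d = 2) ∨ (N = 2 ∧ d = 3) ∨ (N = 3 ∧ d = 2) := by
  rcases Nat.lt_or_ge N 2 with h1 | h1
  · left; omega
  right
  -- `d ≥ 4`
  have hd4 : d ≤ 3 := by
    by_contra hcon
    push Not at hcon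
    have h2 : (2 + d).choose 2 ≤ d ^ 2 := by
      rw [Nat.choose_two_right]
      apply Nat.div_le_of_le_mul
      have e : 2 + d - 1 = d + 1 := by omega
      rw [e]
      nlinarith
    have h3 := step_up (N := 2) (by norm_num) hd h2 (N - 2)
    rw [Nat.add_sub_cancel' h1] at h3
    omega
  rcases (show d = 2 ∨ d = 3 by omega) with rfl | rfl
  · -- `d = 2`
    have hN3 : N ≤ 3 := by
      by_contra hcon
      push Not at hcon
      have h2 : (4 + 2).choose 4 ≤ 2 ^ 4 := by decide
      have h3 := step_up (N := 4) (by norm_num) hd h2 (N - 4)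
      rw [Nat.add_sub_cancel' (by omega)] at h3
      omega
    rcases (show N = 2 ∨ N = 3 by omega) with rfl | rfl
    · left; exact ⟨rfl, rfl⟩
    · right; right; exact ⟨rfl, rfl⟩
  · have hN2 : N ≤ 2 := by
      by_contra hcon
      push Not at hcon
      have h2 : (3 + 3).choose 3 ≤ 3 ^ 3 := by decide
      have h3 := step_up (N := 3) (by norm_num) hd h2 (N - 3)
      rw [Nat.add_sub_cancel' (by omega)] at h3
      omega
    right; left; exact ⟨by omega, rfl⟩

end Pool.Agent.W2helper9.SD
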