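import Pool.Agent.W2helper9.SD.Stm

/-!
# Project SD: CURVE, and the assembly
-/

set_option autoImplicit false

open MvPolynomial IsDedekindDomain NumberField

namespace Pool.Agent.W2helper9.SD

open Pool.Agent.Helper819.Dyn

theorem p_curve : P_CURVE := by
  intro N d γ D hhom hrat hinf t0 ht0
  refine ⟨hhom t0, fun p hp => ?_⟩
  have key : ∀ p : MvPolynomial (Fin (N + 1) × (Fin (N + 1) →₀ ℕ)) Kb,
      ∃ (A : Polynomial Kb) (m : ℕ), ∀ t, D.eval t ≠ 0 →
        eval (co (γ t)) p * (D.eval t) ^ m = A.eval t := by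
    intro p
    induction p using MvPolynomial.induction_on with
    | C a => exact ⟨Polynomial.C a, 0, fun t _ => by simp⟩
    | add p q hp hq =>
      obtain ⟨A, m, hA⟩ := hp
      obtain ⟨B, n, hB⟩ := hq
      refine ⟨A * D ^ n + B * D ^ m, m + n, fun t ht => ?_⟩
      rw [map_add, Polynomial.eval_add, Polynomial.eval_mul, Polynomial.eval_mul,
        Polynomial.eval_pow, Polynomial.eval_pow, ← hA t ht, ← hB t ht]
      ring
    | mul_X p q hp =>
      obtain ⟨A, m, hA⟩ := hp
      obtain ⟨B, n, hB⟩ := hrat q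
      refine ⟨A * B, m + n, fun t ht => ?_⟩
      rw [map_mul, eval_X, Polynomial.eval_mul, ← hA t ht, ← hB t ht]
      ring
  obtain ⟨A, m, hA⟩ := key p
  have hA0 : A = 0 := by
    apply Polynomial.eq_zero_of_infinite_isRoot
    refine hinf.mono ?_
    rintro t ⟨ht, hmem⟩
    show A.eval t = 0
    rw [← hA t ht, hmem.2 p hp, zero_mul]
  have h := hA t0 ht0
  rw [hA0, Polynomial.eval_zero] at h
  rcases mul_eq_zero.1 h with h | h
  · exact h
  · exact absurd h (pow_ne_zero m ht0)

/-- substitution is multiplicative -/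
theorem lin_mul {N : ℕ} (A B : Matrix (Fin (N + 1)) (Fin (N + 1)) Kb)
    (F : MvPolynomial (Fin (N + 1)) Kb) : lin B (lin A F) = lin (A * B) F := by
  unfold lin
  rw [bind₁_bind₁]
  congr 1
  apply MvPolynomial.algHom_ext
  intro l
  rw [bind₁_X_right, bind₁_X_right, map_sum]
  simp only [map_mul, bind₁_C_right, bind₁_X_right, Finset.mul_sum]
  rw [Finset.sum_comm]
  apply Finset.sum_congr rfl
  intro m _
  rw [Matrix.mul_apply, map_sum, Finset.sum_mul]
  apply Finset.sum_congr rfl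
  intro j _
  rw [map_mul]
  ring

theorem lin_one {N : ℕ} (F : MvPolynomial (Fin (N + 1)) Kb) : lin 1 F = F := by
  unfold lin
  have : (fun l : Fin (N + 1) => ∑ m, C ((1 : Matrix (Fin (N + 1)) (Fin (N + 1)) Kb) l m) *
      (X m : MvPolynomial (Fin (N + 1)) Kb)) = X := by
    funext l
    rw [Finset.sum_eq_single l]
    · simp
    · intro m _ hm
      rw [Matrix.one_apply_ne hm.symm]; simp
    · simp
  rw [this, bind₁_X_left]
  rfl

theorem lin_homog {N d : ℕ} (B : Matrix (Fin (N + 1)) (Fin (N + 1)) Kb)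
    {F : MvPolynomial (Fin (N + 1)) Kb} (hF : F.IsHomogeneous d) : (lin B F).IsHomogeneous d := by
  have h := hF.aeval (fun l => ∑ m, C (B l m) * (X m : MvPolynomial (Fin (N + 1)) Kb)) (n := 1)
    (fun l => by
      apply IsHomogeneous.sum
      intro m _
      have h1 := (isHomogeneous_C (Fin (N + 1)) (B l m)).mul (isHomogeneous_X Kb m)
      simpa using h1)
  rw [one_mul] at h
  exact h

/-- From the base family to everything. -/
theorem all_of_base {N d : ℕ} (hC : P_CURVE) (hI : P_INV) (hG : P_GEN)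
    (F0 : MvPolynomial (Fin (N + 1)) Kb) (G : Fin N → MvPolynomial (Fin (N + 1)) Kb)
    (hF0 : F0.IsHomogeneous d) (hGh : ∀ i, (G i).IsHomogeneous d)
    (hspan : homogeneousSubmodule (Fin (N + 1)) Kb d ≤ Submodule.span Kb
      (Set.range (fun ij : Fin (N + 1) × Fin (N + 1) => X ij.1 * pderiv ij.2 F0) ∪ Set.range G))
    (hbase : ∀ H : Fin N → MvPolynomial (Fin (N + 1)) Kb, (∀ i, (H i).IsHomogeneous d) →
      (Fin.cons F0 H : Tuple Kb N) ∈ Zcl N d) :
    ∀ F : Tuple Kb N, (∀ i, (F i).IsHomogeneous d) → F ∈ Zcl N d := by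
  intro F hF
  refine ⟨hF, fun p hp => ?_⟩
  refine hG N d F0 G hF0 hGh hspan p ?_ F hF
  intro B hB a H hH
  -- the tuple
  have hBu : IsUnit B.det := isUnit_iff_ne_zero.2 hB
  set A : Matrix (Fin (N + 1)) (Fin (N + 1)) Kb := fun i j =>
    Fin.cases (Fin.cases 1 a j) (fun i' => if j = i'.succ then 1 else 0) i with hA
  have hAdet : A.det ≠ 0 := by
    have h1 : A.BlockTriangular id := by
      intro i j hij
      simp only [id] at hij
      refine Fin.cases ?_ (fun i' => ?_) i
        (motive := fun i => j < i → A i j = 0) hij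
      · intro h
        exact absurd h (by simp)
      · intro h
        show (if j = i'.succ then (1 : Kb) else 0) = 0
        rw [if_neg h.ne]
    rw [Matrix.det_of_isUpperTriangular h1]
    rw [Finset.prod_eq_one]
    · exact one_ne_zero
    · intro i _
      refine Fin.cases ?_ (fun i' => ?_) i
      · rfl
      · show (if i'.succ = i'.succ then (1 : Kb) else 0) = 1
        rw [if_pos rfl]
  have h2 := hI hC N d A B hAdet hB (Fin.cons F0 (fun i => lin B⁻¹ (H i)))
    (hbase _ (fun i => lin_homog _ (hH i)))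
  have h3 : (fun i => ∑ j, C (A i j) * lin B
      ((Fin.cons F0 (fun i => lin B⁻¹ (H i)) : Tuple Kb N) j)) =
      (Fin.cons (lin B F0 + ∑ i, C (a i) * H i) H : Tuple Kb N) := by
    funext i
    rw [Fin.sum_univ_succ]
    simp only [Fin.cons_zero, Fin.cons_succ, lin_mul, Matrix.nonsing_inv_mul B hBu, lin_one]
    refine Fin.cases ?_ (fun i' => ?_) i
    · simp [hA]
    · simp only [hA, Fin.cases_succ, Fin.cons_succ]
      rw [if_neg (Fin.succ_ne_zero i').symm, map_zero, zero_mul, zero_add]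
      rw [Finset.sum_eq_single i']
      · rw [if_pos rfl, map_one, one_mul]
      · intro j _ hj
        rw [if_neg (fun h => hj (Fin.succ_injective _ h)), map_zero, zero_mul]
      · simp
  rw [h3] at h2
  exact h2.2 p hp

/-- The three cases. -/
theorem cases_all (hC : P_CURVE) (hI : P_INV) (hG : P_GEN) (hS : P_SPAN) (h22 : P_B22)
    (h23 : P_B23) (h32 : P_B32) (hD2 : P_D2) (hDN : P_DN) (hD6 : P_D6) (hD9 : P_D9) :
    (∀ F : Tuple Kb 2, (∀ i, (F i).IsHomogeneous 2) → F ∈ Zcl 2 2) ∧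
    (∀ F : Tuple Kb 2, (∀ i, (F i).IsHomogeneous 3) → F ∈ Zcl 2 3) ∧
    (∀ F : Tuple Kb 3, (∀ i, (F i).IsHomogeneous 2) → F ∈ Zcl 3 2) := by
  refine ⟨?_, ?_, ?_⟩
  · refine all_of_base hC hI hG (X 0 * X 1) ![X 2 ^ 2, 0] ?_ ?_ hS.1 ?_
    · exact (isHomogeneous_X Kb 0).mul (isHomogeneous_X Kb 1)
    · intro i
      fin_cases i
      · exact (isHomogeneous_X_pow 2 2)
      · exact isHomogeneous_zero _ _ _
    · intro H hH
      have h := h22 hC hI hD2 (H 0) (H 1) (hH 0) (hH 1)
      have e : (Fin.cons (X 0 * X 1) H : Tuple Kb 2) = ![X 0 * X 1, H 0, H 1] := by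
        funext i; fin_cases i <;> rfl
      rw [e]; exact h
  · refine all_of_base hC hI hG (X 1 * (X 0 * X 2 - X 1 ^ 2)) ![X 0 ^ 3, X 2 ^ 3] ?_ ?_ hS.2.1 ?_
    · exact (isHomogeneous_X Kb 1).mul
        (((isHomogeneous_X Kb 0).mul (isHomogeneous_X Kb 2)).sub (isHomogeneous_X_pow 1 2))
    · intro i
      fin_cases i
      · exact (isHomogeneous_X_pow 0 3)
      · exact (isHomogeneous_X_pow 2 3)
    · intro H hH
      have h := h23 hC hI hDN (H 0) (H 1) (hH 0) (hH 1)
      have e : (Fin.cons (X 1 * (X 0 * X 2 - X 1 ^ 2)) H : Tuple Kb 2) =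
          ![X 1 * (X 0 * X 2 - X 1 ^ 2), H 0, H 1] := by
        funext i; fin_cases i <;> rfl
      rw [e]; exact h
  · refine all_of_base hC hI hG (X 0 * X 1) ![X 2 ^ 2, X 2 * X 3, X 3 ^ 2] ?_ ?_ hS.2.2 ?_
    · exact (isHomogeneous_X Kb 0).mul (isHomogeneous_X Kb 1)
    · intro i
      fin_cases i
      · exact (isHomogeneous_X_pow 2 2)
      · exact (isHomogeneous_X Kb 2).mul (isHomogeneous_X Kb 3)
      · exact (isHomogeneous_X_pow 3 2)
    · intro H hH
      have h := h32 hC hI (hD9 hD6) (H 0) (H 1) (H 2) (hH 0) (hH 1) (hH 2)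
      have e : (Fin.cons (X 0 * X 1) H : Tuple Kb 3) = ![X 0 * X 1, H 0, H 1, H 2] := by
        funext i; fin_cases i <;> rfl
      rw [e]; exact h

end Pool.Agent.W2helper9.SD
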