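import Pool.Agent.W2helper9.SD.Curve

/-!
# Project SD: INV
-/

set_option autoImplicit false

open MvPolynomial

namespace Pool.Agent.W2helper9.SD

open Pool.Agent.Helper819.Dyn

variable {N d : ℕ}

/-- left multiplication -/
noncomputable def LA {R : Type} [CommRing R] (A : Matrix (Fin (N + 1)) (Fin (N + 1)) R)
    (F : Tuple R N) : Tuple R N := fun i => ∑ j, C (A i j) * F j

/-- linear substitution over any ring -/
noncomputable def linr {R : Type} [CommRing R] (B : Matrix (Fin (N + 1)) (Fin (N + 1)) R)
    (F : MvPolynomial (Fin (N + 1)) R) : MvPolynomial (Fin (N + 1)) R :=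
  bind₁ (fun l => ∑ m, C (B l m) * X m) F

theorem map_LA {R S : Type} [CommRing R] [CommRing S] (f : R →+* S)
    (A : Matrix (Fin (N + 1)) (Fin (N + 1)) R) (F : Tuple R N) (i : Fin (N + 1)) :
    map f (LA A F i) = LA (A.map f) (fun j => map f (F j)) i := by
  unfold LA
  rw [map_sum]
  apply Finset.sum_congr rfl
  intro j _
  rw [map_mul, map_C, Matrix.map_apply]

theorem map_linr {R S : Type} [CommRing R] [CommRing S] (f : R →+* S)
    (B : Matrix (Fin (N + 1)) (Fin (N + 1)) R) (F : MvPolynomial (Fin (N + 1)) R) :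
    map f (linr B F) = linr (B.map f) (map f F) := by
  unfold linr
  rw [map_bind₁]
  congr 2
  funext l
  rw [map_sum]
  apply Finset.sum_congr rfl
  intro j _
  rw [map_mul, map_C, map_X, Matrix.map_apply]

theorem linr_homog {R : Type} [CommRing R] (B : Matrix (Fin (N + 1)) (Fin (N + 1)) R)
    {F : MvPolynomial (Fin (N + 1)) R} (hF : F.IsHomogeneous d) : (linr B F).IsHomogeneous d := by
  have h := hF.aeval (fun l => ∑ m, C (B l m) * (X m : MvPolynomial (Fin (N + 1)) R)) (n := 1)
    (fun l => by
      apply IsHomogeneous.sum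
      intro m _
      have h1 := (isHomogeneous_C (Fin (N + 1)) (B l m)).mul (isHomogeneous_X R m)
      simpa using h1)
  rw [one_mul] at h
  exact h

theorem LA_homog {R : Type} [CommRing R] (A : Matrix (Fin (N + 1)) (Fin (N + 1)) R)
    {F : Tuple R N} (hF : ∀ i, (F i).IsHomogeneous d) (i : Fin (N + 1)) :
    (LA A F i).IsHomogeneous d := by
  unfold LA
  apply IsHomogeneous.sum
  intro m _
  have h1 := (isHomogeneous_C (Fin (N + 1)) (A i m)).mul (hF m)
  simpa using h1

theorem eval_LA {R κ : Type} [CommRing R] [Field κ] (φ : R →+* κ)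
    (A : Matrix (Fin (N + 1)) (Fin (N + 1)) R) (F : Tuple R N) (x : Fin (N + 1) → κ)
    (i : Fin (N + 1)) :
    eval₂ φ x (LA A F i) = ((A.map φ).mulVec fun j => eval₂ φ x (F j)) i := by
  unfold LA
  rw [eval₂_sum]
  simp only [eval₂_mul, eval₂_C, Matrix.mulVec, dotProduct, Matrix.map_apply]

theorem eval_linr {R κ : Type} [CommRing R] [Field κ] (φ : R →+* κ)
    (B : Matrix (Fin (N + 1)) (Fin (N + 1)) R) (F : MvPolynomial (Fin (N + 1)) R)
    (x : Fin (N + 1) → κ) :
    eval₂ φ x (linr B F) = eval₂ φ ((B.map φ).mulVec x) F := by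
  unfold linr
  have h := eval₂Hom_bind₁ φ x (fun l => ∑ m, C (B l m) * (X m : MvPolynomial (Fin (N + 1)) R)) F
  rw [coe_eval₂Hom, coe_eval₂Hom] at h
  rw [h]
  congr 1
  funext l
  rw [eval₂_sum]
  simp only [eval₂_mul, eval₂_C, eval₂_X, Matrix.mulVec, dotProduct, Matrix.map_apply]

theorem det_map_ne {κ : Type} [Field κ] (φ : Z2 →+* κ)
    {A : Matrix (Fin (N + 1)) (Fin (N + 1)) Z2} (hA : IsUnit A.det) : (A.map φ).det ≠ 0 := by
  have h := hA.map φ
  rw [RingHom.map_det] at h
  exact h.ne_zero

theorem intGood_LA {A : Matrix (Fin (N + 1)) (Fin (N + 1)) Z2} (hA : IsUnit A.det)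
    {T : Tuple Z2 N} (hT : IntGood N d T) : IntGood N d (LA A T) := by
  refine ⟨LA_homog A hT.1, ?_⟩
  intro κ _ _ φ x hx
  apply hT.2 κ φ x
  have h : (A.map φ).mulVec (fun j => eval₂ φ x (T j)) = 0 := by
    funext i
    rw [← eval_LA, hx i]; rfl
  have h2 := Matrix.eq_zero_of_mulVec_eq_zero (det_map_ne φ hA) h
  exact fun i => congrFun h2 i

theorem intGood_linr {B : Matrix (Fin (N + 1)) (Fin (N + 1)) Z2} (hB : IsUnit B.det)
    {T : Tuple Z2 N} (hT : IntGood N d T) : IntGood N d (fun i => linr B (T i)) := by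
  refine ⟨fun i => linr_homog B (hT.1 i), ?_⟩
  intro κ _ _ φ x hx
  have h := hT.2 κ φ ((B.map φ).mulVec x) (fun i => by rw [← eval_linr]; exact hx i)
  exact Matrix.eq_zero_of_mulVec_eq_zero (det_map_ne φ hB) h

/-- regular maps -/
theorem reg (Φ : Tuple Kb N → Tuple Kb N)
    (ha : ∀ F, (∀ i, (F i).IsHomogeneous d) → ∀ i, (Φ F i).IsHomogeneous d)
    (P : Fin (N + 1) × (Fin (N + 1) →₀ ℕ) → MvPolynomial (Fin (N + 1) × (Fin (N + 1) →₀ ℕ)) Kb)
    (hb : ∀ F, (∀ i, (F i).IsHomogeneous d) → ∀ q, co (Φ F) q = eval (co F) (P q))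
    (hc : ∀ T, IntGood N d T → ∃ T', IntGood N d T' ∧
      (fun i => map io (T' i)) = Φ (fun i => map io (T i))) :
    ∀ F ∈ Zcl N d, Φ F ∈ Zcl N d := by
  intro F hF
  refine ⟨ha F hF.1, fun p hp => ?_⟩
  have key : ∀ F, (∀ i, (F i).IsHomogeneous d) →
      eval (co F) (bind₁ P p) = eval (co (Φ F)) p := by
    intro F hF
    have h : eval (co F) (bind₁ P p) = eval (fun i => eval (co F) (P i)) p :=
      eval₂Hom_bind₁ (RingHom.id Kb) (co F) P p
    rw [h]
    congr 1
    congr 1
    funext q
    exact (hb F hF q).symm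
  rw [← key F hF.1]
  apply hF.2
  intro T hT
  rw [key _ (fun i => (hT.1 i).map _)]
  obtain ⟨T', hT', he⟩ := hc T hT
  rw [← he]
  exact hp T' hT'

theorem inv_LA_int {A : Matrix (Fin (N + 1)) (Fin (N + 1)) Z2} (hA : IsUnit A.det) :
    ∀ F ∈ Zcl N d, LA (A.map io) F ∈ Zcl N d := by
  apply reg (LA (A.map io)) (fun F hF => LA_homog _ hF)
    (fun q => ∑ j, C (A.map io q.1 j) * X (j, q.2))
  · intro F _ q
    rw [map_sum]
    simp only [map_mul, eval_C, eval_X, co]
    unfold LA
    rw [coeff_sum]
    apply Finset.sum_congr rfl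
    intro j _
    rw [coeff_C_mul]
  · intro T hT
    refine ⟨LA A T, intGood_LA hA hT, ?_⟩
    funext i
    exact map_LA io A T i

/-- the exponents of degree `d` -/
noncomputable def expo (N d : ℕ) : Finset (Fin (N + 1) →₀ ℕ) := Finset.univ.finsuppAntidiag d

theorem eq_sum {F : MvPolynomial (Fin (N + 1)) Kb} (hF : F.IsHomogeneous d) :
    F = ∑ m ∈ expo N d, monomial m (coeff m F) := by
  conv_lhs => rw [F.as_sum]
  apply Finset.sum_subset
  · intro m hm
    unfold expo
    rw [Finset.mem_finsuppAntidiag]
    have h := hF (mem_support_iff.1 hm)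
    refine ⟨?_, by simp⟩
    rw [← h]
    rw [Finsupp.weight_apply, Finsupp.sum_fintype _ _ (by simp)]
    simp
  · intro m _ hm
    rw [notMem_support_iff.1 hm, monomial_zero]

theorem inv_RB_int {B : Matrix (Fin (N + 1)) (Fin (N + 1)) Z2} (hB : IsUnit B.det) :
    ∀ F ∈ Zcl N d, (fun i => linr (B.map io) (F i)) ∈ Zcl N d := by
  apply reg (fun F i => linr (B.map io) (F i)) (fun F hF i => linr_homog _ (hF i))
    (fun q => ∑ m ∈ expo N d, C (coeff q.2 (linr (B.map io) (monomial m 1))) * X (q.1, m))
  · intro F hF q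
    rw [map_sum]
    simp only [map_mul, eval_C, eval_X, co]
    conv_lhs => rw [eq_sum (hF q.1)]
    unfold linr
    rw [map_sum, coeff_sum]
    apply Finset.sum_congr rfl
    intro m _
    have h : (monomial m (coeff m (F q.1)) : MvPolynomial (Fin (N + 1)) Kb) =
        C (coeff m (F q.1)) * monomial m 1 := by
      rw [C_mul_monomial, mul_one]
    rw [h, map_mul, bind₁_C_right, coeff_C_mul, mul_comm]
  · intro T hT
    refine ⟨fun i => linr B (T i), intGood_linr hB hT, ?_⟩
    funext i
    exact map_linr io B (T i)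

/-- polynomial curves -/
theorem curve' (hC : P_CURVE) (G : Fin (N + 1) → MvPolynomial (Fin (N + 1)) (Polynomial Kb))
    (hG : ∀ i, (G i).IsHomogeneous d) (S : Set Kb) (hS : S.Infinite)
    (h : ∀ t ∈ S, (fun i => map (Polynomial.evalRingHom t) (G i)) ∈ Zcl N d) (t : Kb) :
    (fun i => map (Polynomial.evalRingHom t) (G i)) ∈ Zcl N d := by
  refine hC N d (fun t i => map (Polynomial.evalRingHom t) (G i)) 1 ?_ ?_ ?_ t ?_
  · exact fun t i => (hG i).map _
  · intro q
    refine ⟨coeff q.2 (G q.1), 0, fun t _ => ?_⟩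
    simp [co, coeff_map]
  · refine hS.mono fun t ht => ⟨by simp, h t ht⟩
  · simp

theorem inf_nat : (Set.range (fun n : ℕ => ((n : ℤ) : Kb))).Infinite := by
  apply Set.infinite_range_of_injective
  intro a b h
  simpa using h

theorem inf_pow : (Set.range (fun n : ℕ => ((2 : Kb) ^ n))).Infinite := by
  apply Set.infinite_range_of_injective
  intro a b h
  have h1 : ((2 ^ a : ℕ) : Kb) = ((2 ^ b : ℕ) : Kb) := by push_cast; exact h
  exact Nat.pow_right_injective le_rfl (Nat.cast_injective h1)

/-- one-parameter families of matrices -/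
theorem family (hC : P_CURVE) (M : Matrix (Fin (N + 1)) (Fin (N + 1)) (Polynomial Kb))
    (S : Set Kb) (hS : S.Infinite)
    (h : ∀ t ∈ S, ∃ A : Matrix (Fin (N + 1)) (Fin (N + 1)) Z2, IsUnit A.det ∧
      A.map io = M.map (Polynomial.evalRingHom t)) (t : Kb) :
    (∀ F ∈ Zcl N d, LA (M.map (Polynomial.evalRingHom t)) F ∈ Zcl N d) ∧
    (∀ F ∈ Zcl N d, (fun i => linr (M.map (Polynomial.evalRingHom t)) (F i)) ∈ Zcl N d) := by
  have hmap : ∀ (F : MvPolynomial (Fin (N + 1)) Kb) (t : Kb),
      map (Polynomial.evalRingHom t) (map Polynomial.C F) = F := by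
    intro F t
    rw [map_map]
    have : (Polynomial.evalRingHom t).comp Polynomial.C = RingHom.id Kb := by
      ext a; simp
    rw [this, map_id]
  constructor
  · intro F hF
    have key : ∀ t : Kb, (fun i => map (Polynomial.evalRingHom t)
        (LA M (fun j => map Polynomial.C (F j)) i)) = LA (M.map (Polynomial.evalRingHom t)) F := by
      intro t
      funext i
      rw [map_LA]
      congr 1
      funext j
      exact hmap _ _
    rw [← key t]
    apply curve' hC _ (LA_homog M (fun i => (hF.1 i).map _)) S hS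
    intro s hs
    rw [key s]
    obtain ⟨A, hA, hAM⟩ := h s hs
    rw [← hAM]
    exact inv_LA_int hA F hF
  · intro F hF
    have key : ∀ t : Kb, (fun i => map (Polynomial.evalRingHom t)
        (linr M (map Polynomial.C (F i)))) =
        fun i => linr (M.map (Polynomial.evalRingHom t)) (F i) := by
      intro t
      funext i
      rw [map_linr, hmap]
    rw [← key t]
    apply curve' hC _ (fun i => linr_homog M ((hF.1 i).map _)) S hS
    intro s hs
    rw [key s]
    obtain ⟨A, hA, hAM⟩ := h s hs
    rw [← hAM]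
    exact inv_RB_int hA F hF

/-- the property of a matrix -/
def PM (N d : ℕ) (M : Matrix (Fin (N + 1)) (Fin (N + 1)) Kb) : Prop :=
  (∀ F ∈ Zcl N d, LA M F ∈ Zcl N d) ∧ (∀ F ∈ Zcl N d, (fun i => linr M (F i)) ∈ Zcl N d)

theorem PM_mul {A B : Matrix (Fin (N + 1)) (Fin (N + 1)) Kb} (hA : PM N d A) (hB : PM N d B) :
    PM N d (A * B) := by
  constructor
  · intro F hF
    have h := hA.1 _ (hB.1 F hF)
    have e : LA A (LA B F) = LA (A * B) F := by
      funext i
      unfold LA
      simp only [Finset.mul_sum]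
      rw [Finset.sum_comm]
      apply Finset.sum_congr rfl
      intro j _
      rw [Matrix.mul_apply, map_sum, Finset.sum_mul]
      apply Finset.sum_congr rfl
      intro k _
      rw [map_mul]; ring
    rw [← e]; exact h
  · intro F hF
    have h := hB.2 _ (hA.2 F hF)
    have e : (fun i => linr B (linr A (F i))) = fun i => linr (A * B) (F i) := by
      funext i
      exact lin_mul A B (F i)
    rw [← e]; exact h

theorem PM_transvection (hC : P_CURVE) (i j : Fin (N + 1)) (hij : i ≠ j) (c : Kb) :
    PM N d (Matrix.transvection i j c) := by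
  have h := family (d := d) hC (Matrix.transvection i j (Polynomial.X : Polynomial Kb)) _ inf_nat
    (by
      rintro _ ⟨n, rfl⟩
      refine ⟨Matrix.transvection i j (n : Z2), ?_, ?_⟩
      · rw [Matrix.det_transvection_of_ne i j hij]
        exact isUnit_one
      · ext a b
        simp only [Matrix.map_apply, Matrix.transvection, Matrix.add_apply, map_add,
          Matrix.single, Matrix.of_apply, Matrix.one_apply]
        split_ifs <;> simp) c
  have e : (Matrix.transvection i j (Polynomial.X : Polynomial Kb)).map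
      (Polynomial.evalRingHom c) = Matrix.transvection i j c := by
    ext a b
    simp only [Matrix.map_apply, Matrix.transvection, Matrix.add_apply, map_add,
      Matrix.single, Matrix.of_apply, Matrix.one_apply]
    split_ifs <;> simp
  rw [e] at h
  exact h

theorem io_two : io 2 = 2 := map_ofNat io 2

theorem isUnit_two_pow (n : ℕ) : IsUnit ((2 : Z2) ^ n) := by
  have h : IsUnit (algebraMap ℤ Z2 2) := IsLocalization.Away.algebraMap_isUnit (2 : ℤ)
  have h2 : algebraMap ℤ Z2 2 = 2 := by simp
  rw [h2] at h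
  exact h.pow n

theorem PM_diag_single (hC : P_CURVE) (i : Fin (N + 1)) (c : Kb) :
    PM N d (Matrix.diagonal (Function.update 1 i c)) := by
  have h := family (d := d) hC (Matrix.diagonal (Function.update 1 i (Polynomial.X : Polynomial Kb)))
    _ inf_pow
    (by
      rintro _ ⟨n, rfl⟩
      refine ⟨Matrix.diagonal (Function.update 1 i ((2 : Z2) ^ n)), ?_, ?_⟩
      · rw [Matrix.det_diagonal, Finset.prod_update_of_mem (Finset.mem_univ i)]
        simp only [Pi.one_apply, Finset.prod_const_one, mul_one]
        exact isUnit_two_pow n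
      · ext a b
        simp only [Matrix.map_apply, Matrix.diagonal_apply, Function.update_apply, Pi.one_apply]
        split_ifs <;> simp [io_two]) c
  have e : (Matrix.diagonal (Function.update 1 i (Polynomial.X : Polynomial Kb))).map
      (Polynomial.evalRingHom c) = Matrix.diagonal (Function.update 1 i c) := by
    ext a b
    simp only [Matrix.map_apply, Matrix.diagonal_apply, Function.update_apply, Pi.one_apply]
    split_ifs <;> simp
  rw [e] at h
  exact h

theorem PM_diag (hC : P_CURVE) (D : Fin (N + 1) → Kb) : PM N d (Matrix.diagonal D) := by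
  have key : ∀ s : Finset (Fin (N + 1)),
      PM N d (Matrix.diagonal (fun i => if i ∈ s then D i else 1)) := by
    intro s
    induction s using Finset.induction_on with
    | empty =>
      have h1 := PM_diag_single (N := N) (d := d) hC 0 1
      have e : (Function.update (1 : Fin (N + 1) → Kb) 0 (1 : Kb)) =
          fun i => if i ∈ (∅ : Finset (Fin (N + 1))) then D i else 1 := by
        funext i
        simp [Function.update_apply]
      rw [← e]
      exact h1
    | insert a s ha ih =>
      have h1 := PM_mul (PM_diag_single (N := N) (d := d) hC a (D a)) ih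
      rw [Matrix.diagonal_mul_diagonal] at h1
      have e : (fun i => Function.update (1 : Fin (N + 1) → Kb) a (D a) i *
          (if i ∈ s then D i else 1)) =
          fun i => if i ∈ insert a s then D i else 1 := by
        funext i
        simp only [Function.update_apply, Pi.one_apply, Finset.mem_insert]
        by_cases hi : i = a
        · subst hi
          simp [ha]
        · simp [hi]
      rw [e] at h1
      exact h1
  have h := key Finset.univ
  simpa using h

theorem PM_all (hC : P_CURVE) (M : Matrix (Fin (N + 1)) (Fin (N + 1)) Kb) (hM : M.det ≠ 0) :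
    PM N d M := by
  apply Matrix.diagonal_transvection_induction_of_det_ne_zero (PM N d) M hM
  · exact fun D _ => PM_diag hC D
  · exact fun t => PM_transvection hC t.i t.j t.hij t.c
  · exact fun A B _ _ hA hB => PM_mul hA hB

theorem p_inv : P_INV := by
  intro hC N d A B hA hB F hF
  exact (PM_all hC A hA).1 _ ((PM_all hC B hB).2 F hF)

end Pool.Agent.W2helper9.SD
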