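import Pool.Agent.Helper819.DynDefs

/-!
# Project SD: the Shafarevich dimension `σ_d^N` for `d ^ N < C(N + d, N)`: statements

Main theorem: the classes of morphisms `ℙ^N → ℙ^N` of degree `d` with good reduction outside `2`
are Zariski dense in `M_d^N` for `(N, d) = (2, 2), (2, 3), (3, 2)`.

Idea. A generic tuple is `GL`-equivalent to `(F_0, F_1, …, F_N)` with `F_0 = x y`, `y (x z - y²)`,
`x y`. The restrictions to the components of `F_0 = 0` are, after normalisation at the intersections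
of the components, independent of each other.
-/

set_option autoImplicit false

open MvPolynomial IsDedekindDomain NumberField

namespace Pool.Agent.W2helper9.SD

open Pool.Agent.Helper819.Dyn

noncomputable section

/-- the ring `ℤ[1/2]` -/
abbrev Z2 : Type := Localization.Away (2 : ℤ)

/-- the algebraic numbers -/
abbrev Kb : Type := AlgebraicClosure ℚ

theorem isUnit_two : IsUnit ((Int.castRingHom Kb) (2 : ℤ)) := by
  rw [isUnit_iff_ne_zero]
  simp

/-- the inclusion `ℤ[1/2] → ℚ̄` -/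
def io : Z2 →+* Kb := IsLocalization.Away.lift (2 : ℤ) isUnit_two

/-- A tuple with coefficients in `ℤ[1/2]` which defines a morphism of degree `d` over every field
(of characteristic `≠ 2`). -/
def IntGood (N d : ℕ) (T : Tuple Z2 N) : Prop := (∀ i, (T i).IsHomogeneous d) ∧
  ∀ (κ : Type) [Field κ] [IsAlgClosed κ] (φ : Z2 →+* κ) (x : Fin (N + 1) → κ),
    (∀ i, eval₂ φ x (T i) = 0) → x = 0

/-- the coefficients of a tuple -/
def co {N : ℕ} (F : Tuple Kb N) : Fin (N + 1) × (Fin (N + 1) →₀ ℕ) → Kb :=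
  fun q => coeff q.2 (F q.1)

/-- the Zariski closure of the set of these tuples -/
def Zcl (N d : ℕ) : Set (Tuple Kb N) :=
  {F | (∀ i, (F i).IsHomogeneous d) ∧
    ∀ p : MvPolynomial (Fin (N + 1) × (Fin (N + 1) →₀ ℕ)) Kb,
      (∀ T, IntGood N d T → eval (co fun i => map io (T i)) p = 0) → eval (co F) p = 0}

/-- linear substitution -/
def lin {N : ℕ} (B : Matrix (Fin (N + 1)) (Fin (N + 1)) Kb) (F : MvPolynomial (Fin (N + 1)) Kb) :
    MvPolynomial (Fin (N + 1)) Kb :=
  bind₁ (fun l => ∑ m, C (B l m) * X m) F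

/-- **RED** From the closure to the moduli space. Adaptation of `goodSet_dense`, `shafDim_line` in
`Helper819/Good.lean` (there: `goodT_good`, `conj_one`, `finite_bad`, `map_goodT`). At a place `v`
with `v 2 = 1` the integral tuple is mapped to the valuation ring by `IsLocalization.Away.lift`; two
ring homomorphisms from `ℤ[1/2]` agree (`IsLocalization.ringHom_ext`). `IsEnd` over a field `κ` is
tested over `AlgebraicClosure κ`. -/
def P_RED : Prop := ∀ N d : ℕ,
  (∀ F : Tuple Kb N, (∀ i, (F i).IsHomogeneous d) → F ∈ Zcl N d) →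
  (∀ (K : IntermediateField ℚ (AlgebraicClosure ℚ)) [NumberField K],
    closure (goodSet N d K {v : HeightOneSpectrum (𝓞 K) | v.valuation K 2 ≠ 1}) = Set.univ) ∧
  shafDim N d = topologicalKrullDim (Moduli (AlgebraicClosure ℚ) N d)

/-- **CURVE** A rational curve (with denominators powers of `D`) which meets the closure in
infinitely many points lies in it. Proof: for `p` vanishing on the good tuples the function
`t ↦ eval (co (γ t)) p` is also of the form `A(t) / D(t) ^ m` (induction on `p`). -/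
def P_CURVE : Prop := ∀ (N d : ℕ) (γ : Kb → Tuple Kb N) (D : Polynomial Kb),
  (∀ t i, (γ t i).IsHomogeneous d) →
  (∀ q, ∃ (A : Polynomial Kb) (m : ℕ), ∀ t, D.eval t ≠ 0 →
    co (γ t) q * (D.eval t) ^ m = A.eval t) →
  {t | D.eval t ≠ 0 ∧ γ t ∈ Zcl N d}.Infinite → ∀ t, D.eval t ≠ 0 → γ t ∈ Zcl N d

/-- **INV** The closure is invariant under `GL × GL`. Proof: `IntGood` is invariant under integral
transvections on both sides and under diagonal matrices whose entries are powers of `2`. So the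
closure is invariant under these (a polynomial composed with such a map is a polynomial:
`coeff m (lin B F)` is a finite linear combination of the `coeff m' F` with `|m'| = |m|`), then, by
CURVE, under all transvections (`γ t = T_t F`) and diagonal matrices, and these generate
(`Matrix.diagonal_transvection_induction_of_det_ne_zero`). -/
def P_INV : Prop := P_CURVE → ∀ (N d : ℕ) (A B : Matrix (Fin (N + 1)) (Fin (N + 1)) Kb),
  A.det ≠ 0 → B.det ≠ 0 → ∀ F ∈ Zcl N d,
    (fun i => ∑ j, C (A i j) * lin B (F j)) ∈ Zcl N d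

/-- **GEN** A polynomial in the coefficients of a tuple which vanishes at all
`(F_0 ∘ B + ∑ a_i H_i, H_1, …, H_N)` vanishes if the forms `x_i ∂_j F_0` together with some forms
`G_1, …, G_N` span all forms of degree `d`. Proof: induction on `p.totalDegree`. Let `p` vanish at
all these tuples. Claim: so does every `∂ p / ∂ c_m`, `c_m` a coefficient of the first form. Fix
`B, a, H`. The derivatives of `t ↦ p(F_0 ∘ B + (∑ a_i H_i) + t H_i, H)` and of
`t ↦ p(F_0 ∘ ((1 + t E_ij) B) + ∑ a_i H_i, H)` at `t = 0` vanish, so the gradient `g` of `p` in the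
first form at this point is orthogonal to `H_i` and to the `(x_i ∂_j F_0) ∘ B`. If `H = G`, `B = 1`
these span everything, and so they do for almost all points of the line through `(B, H)` and
`(1, G)` (a determinant is a polynomial in `t`, which is not zero), at which `g = 0`. So `g = 0` at
`(B, a, H)`, as `g` is a polynomial in `t` along this line. By induction all the
`∂ p / ∂ c_m` vanish at all homogeneous tuples, so `t ↦ p(F_0 + t (F - F_0), H)` has derivative `0`
and is constant (characteristic zero), and it is `0` at `t = 0` (`B = 1`, `a = 0`). -/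
def P_GEN : Prop := ∀ (N d : ℕ) (F0 : MvPolynomial (Fin (N + 1)) Kb)
  (G : Fin N → MvPolynomial (Fin (N + 1)) Kb), F0.IsHomogeneous d → (∀ i, (G i).IsHomogeneous d) →
  homogeneousSubmodule (Fin (N + 1)) Kb d ≤ Submodule.span Kb
    (Set.range (fun ij : Fin (N + 1) × Fin (N + 1) => X ij.1 * pderiv ij.2 F0) ∪ Set.range G) →
  ∀ p : MvPolynomial (Fin (N + 1) × (Fin (N + 1) →₀ ℕ)) Kb,
    (∀ B : Matrix (Fin (N + 1)) (Fin (N + 1)) Kb, B.det ≠ 0 → ∀ (a : Fin N → Kb)
      (H : Fin N → MvPolynomial (Fin (N + 1)) Kb), (∀ i, (H i).IsHomogeneous d) →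
      eval (co (Fin.cons (lin B F0 + ∑ i, C (a i) * H i) H)) p = 0) →
    ∀ F : Tuple Kb N, (∀ i, (F i).IsHomogeneous d) → eval (co F) p = 0

/-- **SPAN22, SPAN23, SPAN32** The hypothesis of GEN. -/
def P_SPAN : Prop :=
  (homogeneousSubmodule (Fin 3) Kb 2 ≤ Submodule.span Kb
    (Set.range (fun ij : Fin 3 × Fin 3 => X ij.1 * pderiv ij.2 (X 0 * X 1)) ∪
      Set.range ![X 2 ^ 2, 0])) ∧
  (homogeneousSubmodule (Fin 3) Kb 3 ≤ Submodule.span Kb
    (Set.range (fun ij : Fin 3 × Fin 3 => X ij.1 * pderiv ij.2 (X 1 * (X 0 * X 2 - X 1 ^ 2))) ∪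
      Set.range ![X 0 ^ 3, X 2 ^ 3])) ∧
  (homogeneousSubmodule (Fin 4) Kb 2 ≤ Submodule.span Kb
    (Set.range (fun ij : Fin 4 × Fin 4 => X ij.1 * pderiv ij.2 (X 0 * X 1)) ∪
      Set.range ![X 2 ^ 2, X 2 * X 3, X 3 ^ 2]))

/-- A set of vectors over `ℤ[1/2]` is Zariski dense. -/
def ZDense {σ : Type} (E : Set (σ → Z2)) : Prop :=
  ∀ p : MvPolynomial σ Kb, (∀ a ∈ E, eval (fun i => io (a i)) p = 0) → p = 0

/-- The binary forms `t^n + ∑ a_i t^(i+1) s^(n-1-i)` and `s^n + ∑ b_i t^(i+1) s^(n-1-i)`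
(`i = 0, …, n - 2`) have no common zero over any field. -/
def Cop (n : ℕ) (a : Fin (n - 1) ⊕ Fin (n - 1) → Z2) : Prop :=
  ∀ (κ : Type) [Field κ] [IsAlgClosed κ] (φ : Z2 →+* κ) (s t : κ),
    t ^ n + ∑ i : Fin (n - 1), φ (a (.inl i)) * t ^ (i.1 + 1) * s ^ (n - 1 - i.1) = 0 →
    s ^ n + ∑ i : Fin (n - 1), φ (a (.inr i)) * t ^ (i.1 + 1) * s ^ (n - 1 - i.1) = 0 →
    s = 0 ∧ t = 0

/-- **DN** Take the first form `t ∏ (t - α_i s)`, `i < n - 1`, with distinct integers `α_i ≠ 0`, and
the second form `Q = s^n + s ∑ c_i t ∏_{j ≠ i} (t - α_j s)`, `c_i = (ε_i - 1) / (α_i ∏ (α_i - α_j))`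
where `ε_i` is a power of `2` which is `≡ 1` modulo the odd part of `α_i ∏_{j ≠ i} (α_i - α_j)`. Then
`Q(s, α_i s) = ε_i s^n`, so there is no common zero. Density: for fixed `α` there are infinitely
many choices for each `ε_i`, so a polynomial `p` which vanishes at these points vanishes for all
`ε_i` in the field and then for all `α_i` in the field with `α_i ≠ 0`, `α_i ≠ α_j`
(`MvPolynomial.funext_set` or the like, clear denominators); every pair (monic `P_1` of degree
`n - 1` with distinct nonzero roots, `Q` with `Q(0) = 1` and degree `≤ n - 1`) is of this form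
(Lagrange interpolation), and such pairs are dense (discriminant). -/
def P_DN : Prop := ∀ n : ℕ, 2 ≤ n → ZDense {a | Cop n a}

/-- The binary forms `t^2 + a_0 t s + a_1 s^2` and `a_2 t s + a_3 s^2` have no common zero over any
field. -/
def Cop2 (a : Fin 4 → Z2) : Prop :=
  ∀ (κ : Type) [Field κ] [IsAlgClosed κ] (φ : Z2 →+* κ) (s t : κ),
    t ^ 2 + φ (a 0) * t * s + φ (a 1) * s ^ 2 = 0 → φ (a 2) * t * s + φ (a 3) * s ^ 2 = 0 →
    s = 0 ∧ t = 0

/-- **D2** `(t - α s)(t - β s)` and `s (p t + q s)` with `p = (ε - η) / (α - β)`, `q = ε - p α`,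
`ε`, `η` powers of `2` congruent modulo the odd part of `α - β`. Or: `(t + v s)(t + w s) + e s^2` and
`u s (t + v s)` with units `e`, `u` and integers `v`, `w`. -/
def P_D2 : Prop := ZDense {a | Cop2 a}

/-- The forms `z^2 + y (a_0 y + a_1 z + a_2 w)`, `z w + y (a_3 y + a_4 z + a_5 w)`,
`w^2 + y (a_6 y + a_7 z + a_8 w)` have no common zero over any field. -/
def Cop9 (a : Fin 9 → Z2) : Prop :=
  ∀ (κ : Type) [Field κ] [IsAlgClosed κ] (φ : Z2 →+* κ) (y z w : κ),
    z ^ 2 + y * (φ (a 0) * y + φ (a 1) * z + φ (a 2) * w) = 0 →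
    z * w + y * (φ (a 3) * y + φ (a 4) * z + φ (a 5) * w) = 0 →
    w ^ 2 + y * (φ (a 6) * y + φ (a 7) * z + φ (a 8) * w) = 0 → y = 0 ∧ z = 0 ∧ w = 0

/-- **D6** The case `a_3 = a_4 = a_5 = 0`. Write `a1 = a_0`, `b1 = a_1`, `c1 = a_2`, `a3 = a_6`,
`b3 = a_7`, `c3 = a_8`. On `z = 0` a common zero has `y ≠ 0` and is excluded if
`ρ = a1^2 - c3 a1 c1 + a3 c1^2` is a unit, on `w = 0` if `ρ' = a3^2 - b1 b3 a3 + a1 b3^2` is a unit
(`y = 1`: `a1 + c1 w = 0` and `w^2 + c3 w + a3 = 0` give `ρ = 0`). Choose `a1` a power of `2`, `a3` an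
odd integer, `c1` an odd integer, `η` a power of `2` with `η ≡ 1 mod c1`, `ρ = a1^2 η`,
`c3 = a3 c1 / a1 + a1 (1 - η) / c1`, `b3` a power of `2`, `η'` a power of `2` with `η' ≡ 1 mod a3`,
`ρ' = a1 b3^2 η'`, `b1 = a3 / b3 + a1 b3 (1 - η') / a3`. Each new parameter has infinitely many values
for given previous ones and gives one new coordinate, so these points are dense. -/
def P_D6 : Prop := ZDense {a : Fin 6 → Z2 | Cop9 ![a 0, a 1, a 2, 0, 0, 0, a 3, a 4, a 5]}

/-- **D9** From D6. The set of the `a` with `Cop9 a` is invariant under `z ↦ z + α y`, `w ↦ w + β y`,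
and under the shear `z ↦ z + τ w` followed by `(f1, f2, f3) ↦ (f1 - 2 τ f2' - τ² f3, f2', f3)`,
`f2' = f2 - τ f3` (for `α, β, τ` in `ℤ[1/2]`), hence its Zariski closure is invariant under these for
`α, β, τ` in the field. A shear changes `(a3, a4, a5) = (a, b, c)` (with third form `(a', b', c')`) into
`(a - τ a', b - τ b', c + τ (b - c') - τ² b')`; if `b' ≠ 0` there is a `τ` with `a = b c` afterwards (a cubic
equation with leading coefficient `b'^2`), then `z ↦ z - c y`, `w ↦ w - b y` makes the second form `z w`. -/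
def P_D9 : Prop := P_D6 → ZDense {a | Cop9 a}

/-- **B22** From D2 and INV, CURVE. Let `c = (F_1(0,0,1), F_2(0,0,1))`. If `c ≠ 0` one can assume by INV
(matrices acting on `F_1, F_2`) `c = (1, 0)`, the other pairs are limits of such (CURVE, a line). Then
`F_1 = z² + a_0 y z + a_1 y² + b_0 x z + b_1 x²`, `F_2 = a_2 y z + a_3 y² + b_2 x z + b_3 x²` up to multiples of
`x y` (INV). With `Cop2 a`, `Cop2 b` the integral tuple is good (on `x = 0` and on `y = 0`). -/
def P_B22 : Prop := P_CURVE → P_INV → P_D2 → ∀ F1 F2 : MvPolynomial (Fin 3) Kb,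
  F1.IsHomogeneous 2 → F2.IsHomogeneous 2 → (![X 0 * X 1, F1, F2] : Tuple Kb 2) ∈ Zcl 2 2

/-- **B23** From DN (`n = 3` and `n = 6`). The matrix of the values of `F_1, F_2` at `(0,0,1)` and
`(1,0,0)` can be assumed to be `1`. Line `y = 0`: `(x, 0, z) = (s, 0, t)`, forms of degree `3` in `(s, t)`;
conic `x z = y²`: `(x, y, z) = (s², s t, t²)`, forms of degree `6`. For `Cop 3 a` and `Cop 6 b`, with
`g = t³ + a_1 t² s + a_0 t s²`, `h = t⁶ + b_4 t⁵ s + … + b_0 t s⁵` the form
`F_1 = z³ + a_1 x z² + a_0 x² z + b_0 x² y + b_2 x y z + b_4 y z² + (b_1 - a_0) x y² + (b_3 - a_1) y² z`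
restricts to `g` and `h`, the same for `F_2` (with `x³`), and all forms with the given values are of
this form up to multiples of `F_0 = y (x z - y²)`. -/
def P_B23 : Prop := P_CURVE → P_INV → P_DN → ∀ F1 F2 : MvPolynomial (Fin 3) Kb,
  F1.IsHomogeneous 3 → F2.IsHomogeneous 3 →
    (![X 1 * (X 0 * X 2 - X 1 ^ 2), F1, F2] : Tuple Kb 2) ∈ Zcl 2 3

/-- **B32** From D9. Coordinates `x, y, z, w = X 0, …, X 3`. The restrictions of `F_1, F_2, F_3` to
`x = y = 0` are quadratic forms in `z, w`; generically they are linearly independent and can be assumed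
to be `z², z w, w²` by INV. Then `F_i = (z², z w, w²)_i + y ℓ_i(y, z, w) + x m_i(x, z, w)` up to multiples of
`x y`. With `Cop9` for the `ℓ` and for the `m` the tuple is good (on `x = 0` and on `y = 0`). -/
def P_B32 : Prop := P_CURVE → P_INV → ZDense {a | Cop9 a} → ∀ F1 F2 F3 : MvPolynomial (Fin 4) Kb,
  F1.IsHomogeneous 2 → F2.IsHomogeneous 2 → F3.IsHomogeneous 2 →
    (![X 0 * X 1, F1, F2, F3] : Tuple Kb 3) ∈ Zcl 3 2

end

end Pool.Agent.W2helper9.SD
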